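import Pool.Agent.W_MP_7b81ff_an.Two

set_option autoImplicit false

open Module

namespace Pool.Agent.Results.MP_7b81ff_an.UniqueOrNonseparable

/-- Ruan's axioms: `N` is the family of matrix norms of an operator space structure on the normed
space `E`, compatible with the norm of `E`. The last axiom is `‖α x β‖ ≤ ‖α‖ ‖x‖ ‖β‖` for scalar
matrices `α`, `β` with their operator norms on Euclidean spaces. -/
def IsOS {E : Type*} [NormedAddCommGroup E] [NormedSpace ℂ E]
    (N : ∀ k : ℕ, Matrix (Fin k) (Fin k) E → ℝ) : Prop :=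
  (∀ x : E, N 1 (Matrix.of fun _ _ => x) = ‖x‖) ∧
  (∀ (k : ℕ) (x y : Matrix (Fin k) (Fin k) E), N k (x + y) ≤ N k x + N k y) ∧
  (∀ (k : ℕ) (c : ℂ) (x : Matrix (Fin k) (Fin k) E), N k (c • x) = ‖c‖ * N k x) ∧
  (∀ (k m : ℕ) (x : Matrix (Fin k) (Fin k) E) (y : Matrix (Fin m) (Fin m) E),
    N (k + m) (Matrix.reindex finSumFinEquiv finSumFinEquiv (Matrix.fromBlocks x 0 0 y))
      = max (N k x) (N m y)) ∧
  (∀ (k m : ℕ) (α : Matrix (Fin k) (Fin m) ℂ) (β : Matrix (Fin m) (Fin k) ℂ)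
    (x : Matrix (Fin m) (Fin m) E) (a b : ℝ), 0 ≤ a → 0 ≤ b →
    (∀ v : Fin m → ℂ, ∑ i, ‖∑ p, α i p * v p‖ ^ 2 ≤ a ^ 2 * ∑ p, ‖v p‖ ^ 2) →
    (∀ v : Fin k → ℂ, ∑ q, ‖∑ j, β q j * v j‖ ^ 2 ≤ b ^ 2 * ∑ j, ‖v j‖ ^ 2) →
    N k (Matrix.of fun i j => ∑ p, ∑ q, (α i p * β q j) • x p q) ≤ a * N m x * b)

/-- `d_cb((E,N),(E,N')) < t`: there is a linear isomorphism `u` with
`‖u‖_cb ‖u⁻¹‖_cb ≤ a b < t`. -/
def DcbLT {E : Type*} [NormedAddCommGroup E] [NormedSpace ℂ E]
    (N N' : ∀ k : ℕ, Matrix (Fin k) (Fin k) E → ℝ) (t : ℝ) : Prop :=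
  ∃ u : E ≃ₗ[ℂ] E, ∃ a b : ℝ, a * b < t ∧ ∀ (k : ℕ) (x : Matrix (Fin k) (Fin k) E),
    N' k (x.map fun e => u e) ≤ a * N k x ∧ N k (x.map fun e => u.symm e) ≤ b * N' k x

/-- Property (i): `OS(E)` is separable for the metric `log d_cb`. -/
def SeparableOS (E : Type*) [NormedAddCommGroup E] [NormedSpace ℂ E] : Prop :=
  ∃ D : ℕ → (∀ k : ℕ, Matrix (Fin k) (Fin k) E → ℝ), (∀ i, IsOS (D i)) ∧
    ∀ N, IsOS N → ∀ ε : ℝ, 0 < ε → ∃ i, DcbLT N (D i) (1 + ε)

/-- Property (ii): `OS(E)` is (sequentially) compact for the metric `log d_cb`. -/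
def CompactOS (E : Type*) [NormedAddCommGroup E] [NormedSpace ℂ E] : Prop :=
  ∀ S : ℕ → (∀ k : ℕ, Matrix (Fin k) (Fin k) E → ℝ), (∀ j, IsOS (S j)) →
    ∃ N, IsOS N ∧ ∃ φ : ℕ → ℕ, StrictMono φ ∧
      ∀ ε : ℝ, 0 < ε → ∃ J : ℕ, ∀ j, J ≤ j → DcbLT (S (φ j)) N (1 + ε)

/-- Property (iii): `OS(E)` consists of a single point, i.e. any two structures on `E` have
cb-distance `1`. -/
def SinglePointOS (E : Type*) [NormedAddCommGroup E] [NormedSpace ℂ E] : Prop :=
  ∀ N N' : (∀ k : ℕ, Matrix (Fin k) (Fin k) E → ℝ), IsOS N → IsOS N' →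
    ∀ ε : ℝ, 0 < ε → DcbLT N N' (1 + ε)

/-- For every finite dimensional complex normed space `E`: either all operator space structures on
`E` coincide, or the set `OS(E)` of operator space structures on `E` is not separable. Hence the
properties (i) `OS(E)` is separable, (ii) `OS(E)` is compact and (iii) `OS(E)` is a single point are
equivalent, for every finite dimensional complex normed space. -/
theorem result (E : Type*) [NormedAddCommGroup E] [NormedSpace ℂ E] [FiniteDimensional ℂ E] :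
    ((∀ N N' : (∀ k : ℕ, Matrix (Fin k) (Fin k) E → ℝ), IsOS N → IsOS N' → N = N') ∨
      ¬ SeparableOS E) ∧
    (SeparableOS E ↔ CompactOS E) ∧ (CompactOS E ↔ SinglePointOS E) := by
  -- dichotomy
  have hdich : (∀ N N' : (∀ k : ℕ, Matrix (Fin k) (Fin k) E → ℝ), IsOS N → IsOS N' → N = N') ∨
      ∃ NN : Set ℕ → (∀ k : ℕ, Matrix (Fin k) (Fin k) E → ℝ), (∀ I, IsOS (NN I)) ∧
        ∃ δ : ℝ, 0 < δ ∧ ∀ D : (∀ k : ℕ, Matrix (Fin k) (Fin k) E → ℝ), IsOS D →
          {I : Set ℕ | DcbLT (NN I) D (1 + δ)}.Finite := by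
    by_cases h3 : 3 ≤ finrank ℂ E
    · right
      obtain ⟨v, δ, hδ, hOS, hfin⟩ := W_MP_7b81ff_an.finite_close h3
      exact ⟨W_MP_7b81ff_an.NI v, hOS, δ, hδ, hfin⟩
    · by_cases h2 : finrank ℂ E = 2
      · exact W_MP_7b81ff_an.dichotomy_two h2
      · left
        intro N N' hN hN'
        exact W_MP_7b81ff_an.unique_of_finrank_le_one (by omega) hN hN'
  rcases hdich with huniq | ⟨NN, hOS, δ, hδ, hfin⟩
  · -- a single structure
    have hone : SinglePointOS E := by
      intro N N' hN hN' ε hε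
      have heq : N = N' := huniq N N' hN hN'
      subst heq
      exact ⟨LinearEquiv.refl ℂ E, 1, 1, by linarith, fun k x => by
        constructor
        · have : (x.map fun e => (LinearEquiv.refl ℂ E) e) = x := by ext i j; simp
          rw [this, one_mul]
        · have : (x.map fun e => (LinearEquiv.refl ℂ E).symm e) = x := by ext i j; simp
          rw [this, one_mul]⟩
    have hcomp : CompactOS E := by
      intro S hS
      exact ⟨S 0, hS 0, id, strictMono_id, fun ε hε => ⟨0, fun j _ => hone _ _ (hS _) (hS 0) ε hε⟩⟩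
    have hsep : SeparableOS E := by
      have hv : ∀ e : E, ∑ i : Fin 3, ‖(0 : Fin 3 → (E →L[ℂ] ℂ)) i e‖ ^ 2 ≤ ‖e‖ ^ 2 := by
        intro e; simp
      have hM := W_MP_7b81ff_an.NI_isOS hv ∅
      exact ⟨fun _ => W_MP_7b81ff_an.NI 0 ∅, fun _ => hM, fun N hN ε hε =>
        ⟨0, hone N _ hN hM ε hε⟩⟩
    exact ⟨Or.inl huniq, iff_of_true hsep hcomp, iff_of_true hcomp hone⟩
  · -- many structures
    have nonsep : ¬ SeparableOS E := by
      rintro ⟨D, hD, hdense⟩
      have hcov : (Set.univ : Set (Set ℕ)) ⊆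
          ⋃ i, {I : Set ℕ | DcbLT (NN I) (D i) (1 + δ)} := by
        intro I _
        obtain ⟨i, hi⟩ := hdense (NN I) (hOS I) δ hδ
        exact Set.mem_iUnion.2 ⟨i, hi⟩
      have hc : (Set.univ : Set (Set ℕ)).Countable :=
        (Set.countable_iUnion fun i => (hfin (D i) (hD i)).countable).mono hcov
      have : Countable (Set ℕ) := Set.countable_univ_iff.1 hc
      obtain ⟨g, hg⟩ := exists_surjective_nat (Set ℕ)
      exact Function.cantor_surjective g hg
    have noncomp : ¬ CompactOS E := by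
      intro hcomp
      obtain ⟨N, hN, φ, hφ, hlim⟩ := hcomp (fun j => NN {j}) (fun j => hOS {j})
      obtain ⟨J, hJ⟩ := hlim δ hδ
      have hsub : (fun j => ({φ (J + j)} : Set ℕ)) '' Set.univ ⊆
          {I : Set ℕ | DcbLT (NN I) N (1 + δ)} := by
        rintro _ ⟨j, -, rfl⟩
        exact hJ (J + j) (Nat.le_add_right J j)
      have hinj : Function.Injective fun j => ({φ (J + j)} : Set ℕ) := by
        intro a b hab
        have h1 : φ (J + a) = φ (J + b) := Set.singleton_injective hab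
        have h2 := hφ.injective h1
        omega
      exact (Set.infinite_univ.image hinj.injOn) ((hfin N hN).subset hsub)
    have nonuniq : ¬ SinglePointOS E := by
      intro huniq
      have hall : {I : Set ℕ | DcbLT (NN I) (NN ∅) (1 + δ)} = Set.univ := by
        ext I
        simp only [Set.mem_univ, iff_true]
        exact huniq _ _ (hOS I) (hOS ∅) δ hδ
      have h1 := hfin (NN ∅) (hOS ∅)
      rw [hall] at h1
      exact Set.infinite_univ h1
    exact ⟨Or.inr nonsep, iff_of_false nonsep noncomp, iff_of_false noncomp nonuniq⟩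

end Pool.Agent.Results.MP_7b81ff_an.UniqueOrNonseparable
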